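import Pool.Agent.V5helper73.SZ.L433
import Pool.Agent.V5helper67.SZ.FIN1
import Pool.Agent.V5helper67.SZ.KOE
import Pool.Agent.V5helper67.SZ.AR
import Pool.Agent.V5helper82.SZ.ATT
import Pool.Agent.V5helper82.SZ.TREE
import Pool.Agent.V5helper40.SZ.SUMX
import Pool.Agent.V5helper21.SZ.CL1
import Pool.Agent.V5helper21.SZ.CNT
import Pool.Agent.V5helper12.SZ.GEO
import Pool.Agent.V5helper12.SZ.MEAN
import Pool.Agent.V5helper27.SZ.HAR2
import Pool.Agent.V5helper27.SZ.LOGM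
import Pool.Agent.V5helper19.SZ.KT
import Pool.Agent.V5helper19.SZ.TWO
import Pool.Agent.V5helper37.GC.SB

set_option autoImplicit false

/-!
# MP_433f59_an: the order of magnitude of `I_λ(r, f')` for `1/√8 < λ ≤ 2/5`, and a bound below `1/√8`

`β(λ) = sup_f limsup_{r → 1} log I_λ(r, f') / log (1/(1-r))`, over all univalent `f` in the unit disc.

1. `β(λ) = 3 - 1/λ` for `1/√8 ≤ λ ≤ 2/5` (known before: `λ ≥ 2/5`; false for `λ ≤ 1/3 + ε` by Makarov);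
2. for `1/√8 < λ ≤ 2/5` every univalent `f` has `I_λ(r, f') = O((1-r)^(-(3-1/λ)))`, the order of the Koebe function;
3. `β(λ) ≤ (√(1 + λ²) - 1)/λ` for `0 < λ ≤ 1/√8`.

The proof. For `f ∈ S` and `H = log (z² f'/f²)`, the Grunsky inequality at `n` points of the disc, tested with the characters
`e^{ijt}`, gives `|∑ H(z_j)|² ≤ (n L)² - n² (log n - C)²`, so at most `exp (C + √(L² - x²))` separated points of a circle have
`Re H ≥ x`. This is applied to the Koebe transforms of `f` at the vertices of the dyadic tree; every point of the circle is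
attached to the vertex on its path to `0` where `|f'(z)| (1 - |z|²)`, weighted by a small power, is largest, and these vertices are
counted by their disjoint images (Koebe's quarter theorem) and the growth theorem.
-/

namespace Pool.Agent.Results.MP_433f59_an.BelowTwoFifths

/-- `f` is analytic and injective in the unit disc (no normalisation). -/
def IsUnivalent (f : ℂ → ℂ) : Prop :=
  DifferentiableOn ℂ f (Metric.ball 0 1) ∧ Set.InjOn f (Metric.ball 0 1)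

/-- `I_λ(r, f')`. -/
noncomputable def I (lam r : ℝ) (f : ℂ → ℂ) : ℝ :=
  ((1 / (2 * Real.pi)) * ∫ θ in (0:ℝ)..(2 * Real.pi), ‖deriv f ((r : ℂ) * Complex.exp ((θ : ℂ) * Complex.I))‖ ^ lam) ^ (1 / lam)

/-- `β(λ) = sup_f limsup_{r → 1-} log I_λ(r, f') / log (1/(1-r))`. -/
noncomputable def beta (lam : ℝ) : EReal :=
  ⨆ f : {f : ℂ → ℂ // IsUnivalent f},
    Filter.limsup (fun r : ℝ => ((Real.log (I lam r f) / Real.log (1 / (1 - r)) : ℝ) : EReal)) (nhdsWithin 1 (Set.Iio 1))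

open V5helper73.SZ

theorem I_eq (lam r : ℝ) (f : ℂ → ℂ) : I lam r f = (mn lam r f) ^ (1 / lam) := by
  unfold I mn
  simp only [circleMap, zero_add]

theorem limsup_eq (lam : ℝ) (f : ℂ → ℂ) :
    Filter.limsup (fun r : ℝ => ((Real.log (I lam r f) / Real.log (1 / (1 - r)) : ℝ) : EReal)) (nhdsWithin 1 (Set.Iio 1)) =
      Filter.limsup (qt lam f) (nhdsWithin 1 (Set.Iio 1)) := by
  congr 1
  funext r
  unfold qt
  rw [I_eq]

theorem lower (h4 : S_KOE) (h5 : S_KOS) {lam : ℝ} (hl : 0 < lam) : ((3 - 1 / lam : ℝ) : EReal) ≤ beta lam := by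
  obtain ⟨c, hc, h⟩ := h4 lam hl
  have h1 := le_limsup hl hc (f := fun z : ℂ => z / (1 - z) ^ 2) h
  rw [← limsup_eq] at h1
  exact h1.trans (le_iSup (fun f : {f : ℂ → ℂ // IsUnivalent f} =>
    Filter.limsup (fun r : ℝ => ((Real.log (I lam r f) / Real.log (1 / (1 - r)) : ℝ) : EReal)) (nhdsWithin 1 (Set.Iio 1)))
    ⟨fun z : ℂ => z / (1 - z) ^ 2, h5.diff, h5.inj⟩)

theorem upper (h6 : S_KT) {lam B K : ℝ} (hl : 0 < lam) (hB : 0 ≤ B) (_hK : 0 ≤ K)
    (h : ∀ f : ℂ → ℂ, InS f → ∀ r : ℝ, 1 / 2 ≤ r → r < 1 → mn lam r f ≤ K * (1 + Real.log (1 / (1 - r))) ^ 2 * (1 - r) ^ (-B)) :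
    beta lam ≤ ((B / lam : ℝ) : EReal) := by
  refine iSup_le fun f => ?_
  rw [limsup_eq]
  obtain ⟨g, hg, hgm⟩ := normal f.2.1 f.2.2 h6
  refine limsup_le (K := ‖deriv (f : ℂ → ℂ) 0‖ ^ lam * K) hl hB fun r hr hr1 => ?_
  rw [hgm lam r (by linarith) hr1 hl.le, mul_assoc, mul_assoc, ← mul_assoc K]
  exact mul_le_mul_of_nonneg_left (h g hg r hr hr1) (by positivity)

theorem core (h1 : S_FIN1) (h2 : S_MEAN) (h3 : S_GEO) (h4 : S_KOE) (h5 : S_KOS) (h6 : S_KT) :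
    (∀ lam : ℝ, 0 < lam → 1 ≤ 8 * lam ^ 2 → lam ≤ 2 / 5 → beta lam = ((3 - 1 / lam : ℝ) : EReal)) ∧
    (∀ lam : ℝ, 0 < lam → 1 < 8 * lam ^ 2 → lam ≤ 2 / 5 → ∀ f : ℂ → ℂ, IsUnivalent f →
      ∃ C : ℝ, ∀ r : ℝ, 1 / 2 ≤ r → r < 1 → I lam r f ≤ C * (1 - r) ^ (-(3 - 1 / lam))) ∧
    (∀ lam : ℝ, 0 < lam → 8 * lam ^ 2 ≤ 1 → beta lam ≤ (((Real.sqrt (1 + lam ^ 2) - 1) / lam : ℝ) : EReal)) := by
  have hlow : ∀ lam : ℝ, 0 < lam → 8 * lam ^ 2 ≤ 1 → beta lam ≤ (((Real.sqrt (1 + lam ^ 2) - 1) / lam : ℝ) : EReal) := by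
    intro lam hl h8
    obtain ⟨K, hK, h⟩ := order_le h1 h2 h3 hl h8
    refine upper h6 hl ?_ hK h
    have : 1 ≤ Real.sqrt (1 + lam ^ 2) := by
      rw [Real.one_le_sqrt]
      nlinarith
    linarith
  refine ⟨fun lam hl h8 h25 => le_antisymm ?_ (lower h4 h5 hl), fun lam hl h8 h25 f hf => ?_, hlow⟩
  · rcases eq_or_lt_of_le h8 with h | h
    · have h9 := hlow lam hl h.symm.le
      have h10 : Real.sqrt (1 + lam ^ 2) = 3 * lam := by
        rw [show 1 + lam ^ 2 = (3 * lam) ^ 2 by nlinarith, Real.sqrt_sq (by positivity)]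
      have h11 : (Real.sqrt (1 + lam ^ 2) - 1) / lam = 3 - 1 / lam := by
        rw [h10]
        field_simp
      rwa [h11] at h9
    · obtain ⟨K, hK, hh⟩ := order_gt h1 h2 h3 hl (by linarith) h
      have h3l : 0 ≤ 3 * lam - 1 := by nlinarith
      have h12 := upper h6 (B := 3 * lam - 1) hl h3l hK (fun f hf r hr hr1 => by
        refine (hh f hf r hr hr1).trans ?_
        have h5 : 0 < 1 - r := by linarith
        have hlog0 : 0 ≤ Real.log (1 / (1 - r)) := by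
          apply Real.log_nonneg
          rw [le_div_iff₀ h5]
          linarith
        have h13 : 1 ≤ (1 + Real.log (1 / (1 - r))) ^ 2 := by nlinarith
        refine mul_le_mul_of_nonneg_right ?_ (by positivity)
        nlinarith)
      have h11 : (3 * lam - 1) / lam = 3 - 1 / lam := by field_simp
      rwa [h11] at h12
  · obtain ⟨K, hK, hh⟩ := order_gt h1 h2 h3 hl (by linarith) h8
    obtain ⟨g, hg, hgm⟩ := normal hf.1 hf.2 h6
    refine ⟨(‖deriv f 0‖ ^ lam * K) ^ (1 / lam), fun r hr hr1 => ?_⟩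
    have h5 : 0 < 1 - r := by linarith
    rw [I_eq, hgm lam r (by linarith) hr1 hl.le]
    have h13 : (1 - r) ^ (-(3 - 1 / lam)) = ((1 - r) ^ (-(3 * lam - 1))) ^ (1 / lam) := by
      rw [← Real.rpow_mul h5.le]
      congr 1
      field_simp
    rw [h13, ← Real.mul_rpow (by positivity) (by positivity)]
    apply Real.rpow_le_rpow (mul_nonneg (by positivity) (mn_nonneg _ _ _)) ?_ (by positivity)
    rw [mul_assoc]
    exact mul_le_mul_of_nonneg_left (hh g hg r hr hr1) (by positivity)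

theorem fin1 : S_FIN1 :=
  V5helper67.SZ.t_FIN1 (V5helper82.SZ.t_TREE V5helper19.SZ.t_KT (V5helper19.SZ.t_TWO V5helper19.SZ.t_KT) V5helper12.SZ.t_GEO)
    V5helper82.SZ.t_ATT (V5helper40.SZ.t_SUMX V5helper67.SZ.t_AR)
    (V5helper21.SZ.t_CL1 V5helper19.SZ.t_KT (V5helper19.SZ.t_TWO V5helper19.SZ.t_KT) V5helper12.SZ.t_GEO V5helper21.SZ.t_CNT
      (V5helper27.SZ.t_HAR2 V5helper27.SZ.t_LOGM) V5helper37.GC.t_SB)

theorem result :
    (∀ lam : ℝ, 0 < lam → 1 ≤ 8 * lam ^ 2 → lam ≤ 2 / 5 → beta lam = ((3 - 1 / lam : ℝ) : EReal)) ∧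
    (∀ lam : ℝ, 0 < lam → 1 < 8 * lam ^ 2 → lam ≤ 2 / 5 → ∀ f : ℂ → ℂ, IsUnivalent f →
      ∃ C : ℝ, ∀ r : ℝ, 1 / 2 ≤ r → r < 1 → I lam r f ≤ C * (1 - r) ^ (-(3 - 1 / lam))) ∧
    (∀ lam : ℝ, 0 < lam → 8 * lam ^ 2 ≤ 1 → beta lam ≤ (((Real.sqrt (1 + lam ^ 2) - 1) / lam : ℝ) : EReal)) :=
  core fin1 (V5helper12.SZ.t_MEAN V5helper19.SZ.t_KT (V5helper19.SZ.t_TWO V5helper19.SZ.t_KT) V5helper12.SZ.t_GEO)
    V5helper12.SZ.t_GEO V5helper67.SZ.t_KOE V5helper67.SZ.t_KOS V5helper19.SZ.t_KT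

end Pool.Agent.Results.MP_433f59_an.BelowTwoFifths
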